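import Mathlib
import Pool.Agent.Work.MP_618f8d_co.Defs
import Pool.Agent.Work.MP_618f8d_co.Final

/-!
# Unique subgraphs of graphs with `n log₂ n` missing edges

Let `m_n = n(n-1)/2 - ⌊n log n / log 2⌋` and let `G_n` be uniformly distributed over the graphs on
`n` labelled vertices with exactly `m_n` edges.  We show that, for every `c < 1`, the probability
that `G_n` has at least `c 2^(m_n)` unique subgraphs tends to `1`; in particular, for all large `n`,
some graph with `n` vertices and `m_n` edges has at least `c 2^(m_n)` unique subgraphs.

The proof is a first moment computation: if `H ≤ G` is not unique, then some nonidentity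
permutation `π` of the vertices maps `H` into `G`.  The expected number of such `π`, for random `G`
and random `H ≤ G`, is estimated with a kernel inequality (`kernel_bound`) for permutations acting
on pairs of vertices, and it tends to `0`.
-/

namespace Pool.Agent.Results.MP_618f8d_co.AlmostAllUnique

open Pool.Agent.Work.MP_618f8d_co Filter Topology

theorem result :
    (∀ c : ℝ, c < 1 → Tendsto
      (fun n : ℕ => prob n (mEdges n) (fun G => c * 2 ^ (mEdges n) ≤ (numUnique G : ℝ)))
      atTop (𝓝 1)) ∧
    (∀ c : ℝ, c < 1 → ∀ᶠ n : ℕ in atTop, ∃ G : SimpleGraph (Fin n),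
      G.edgeSet.ncard = mEdges n ∧ c * 2 ^ (mEdges n) ≤ (numUnique G : ℝ)) := by
  refine ⟨fun c hc => main c hc, fun c hc => ?_⟩
  filter_upwards [(main c hc).eventually (lt_mem_nhds (zero_lt_one))] with n hn
  by_contra h
  push Not at h
  have h0 : {G : SimpleGraph (Fin n) | G.edgeSet.ncard = mEdges n ∧
      c * 2 ^ (mEdges n) ≤ (numUnique G : ℝ)} = ∅ := by
    ext G
    simp only [Set.mem_ofPred_eq, Set.mem_empty_iff_false, iff_false, not_and, not_le]
    exact h G
  rw [prob, h0] at hn
  simp at hn

end Pool.Agent.Results.MP_618f8d_co.AlmostAllUnique
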